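import Mathlib

/-!
Definitions for the circular choosability of planar graphs (MP_4c807e_co).
-/

namespace Pool.Agent.Circ

/-- `H` is a minor of `G`: there are pairwise disjoint connected branch sets `B i` of vertices of
`G`, one for each vertex `i` of `H`, with an edge of `G` between `B i` and `B j` whenever `i` and
`j` are adjacent in `H`. -/
def IsMinor {W V : Type*} (H : SimpleGraph W) (G : SimpleGraph V) : Prop :=
  ∃ B : W → Set V, (∀ i, (G.induce (B i)).Connected) ∧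
    (∀ i j, i ≠ j → Disjoint (B i) (B j)) ∧
    ∀ i j, H.Adj i j → ∃ u ∈ B i, ∃ v ∈ B j, G.Adj u v

/-- Planarity of a finite graph, through Wagner's theorem: no `K₅` minor and no `K₃,₃` minor. -/
def Planar {V : Type*} (G : SimpleGraph V) : Prop :=
  ¬ IsMinor (⊤ : SimpleGraph (Fin 5)) G ∧
    ¬ IsMinor (completeBipartiteGraph (Fin 3) (Fin 3)) G

/-- `c` is a `(k,d)`-colouring of `G`. -/
def IsColouring {V : Type*} (G : SimpleGraph V) (k d : ℕ) (c : V → ℕ) : Prop :=
  (∀ v, c v < k) ∧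
    ∀ u v, G.Adj u v → (d : ℤ) ≤ |(c u : ℤ) - c v| ∧ |(c u : ℤ) - c v| ≤ (k : ℤ) - d

/-- `G` is circularly `t`-choosable. -/
def Choosable {V : Type*} (G : SimpleGraph V) (t : ℝ) : Prop :=
  ∀ k d : ℕ, 1 ≤ d → d ≤ k → ∀ L : V → Finset ℕ, (∀ v, L v ⊆ Finset.range k) →
    (∀ v, t * d ≤ (L v).card) → ∃ c : V → ℕ, IsColouring G k d c ∧ ∀ v, c v ∈ L v

/-- The circular choosability (circular choice number) of `G`. -/
noncomputable def cch {V : Type*} (G : SimpleGraph V) : ℝ :=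
  sInf {t : ℝ | 1 ≤ t ∧ Choosable G t}

/-- The number of edges of `G` with both ends in `B` (vertices ordered, each edge counted once). -/
noncomputable def eIn {V : Type*} [LinearOrder V] (G : SimpleGraph V) (B : Finset V) : ℕ :=
  by classical exact ((B ×ˢ B).filter fun p => p.1 < p.2 ∧ G.Adj p.1 p.2).card

/-- The double fan: the join of two isolated vertices `0, 1` with the path `2, 3, …, N + 1`. -/
def fan (N : ℕ) : SimpleGraph (Fin (N + 2)) where
  Adj u v := ((u : ℕ) < 2 ∧ 2 ≤ (v : ℕ)) ∨ ((v : ℕ) < 2 ∧ 2 ≤ (u : ℕ)) ∨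
    (2 ≤ (u : ℕ) ∧ 2 ≤ (v : ℕ) ∧ ((u : ℕ) + 1 = v ∨ (v : ℕ) + 1 = u))
  symm := ⟨by
    intro u v h
    omega⟩
  loopless := ⟨by
    intro u h
    omega⟩

end Pool.Agent.Circ
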