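import Pool.Agent.Helper12.Circ.Defs

namespace Pool.Agent.Circ

open Finset

section

variable {N : ℕ} {W : Type*} {B : W → Set (Fin (N + 2))}

/-- A branch set is free if it avoids the two apices. -/
def Free (B : W → Set (Fin (N + 2))) (i : W) : Prop := ∀ v ∈ B i, 2 ≤ (v : ℕ)

/-- `B i` lies immediately below `B j`. -/
def Below (B : W → Set (Fin (N + 2))) (i j : W) : Prop :=
  ∃ u ∈ B i, ∃ v ∈ B j, (v : ℕ) = u + 1

lemma walk_between (S : Set (Fin (N + 2))) (hS : ∀ v ∈ S, 2 ≤ (v : ℕ)) {x y : S}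
    (p : ((fan N).induce S).Walk x y) (w : Fin (N + 2))
    (hw : ((x : Fin (N + 2)) ≤ w ∧ w ≤ y) ∨ ((y : Fin (N + 2)) ≤ w ∧ w ≤ x)) : w ∈ S := by
  induction p with
  | nil =>
    rename_i x
    have : w = x := by
      rcases hw with h | h
      · exact le_antisymm h.2 h.1
      · exact le_antisymm h.2 h.1
    rw [this]; exact x.2
  | @cons x x' y hxx' _ ih =>
    by_cases hwx : w = x
    · rw [hwx]; exact x.2
    · apply ih
      have h1 : (fan N).Adj (x : Fin (N + 2)) x' := hxx'
      have hx := hS x x.2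
      have hx' := hS x' x'.2
      simp only [fan] at h1
      have hwx' : (w : ℕ) ≠ x := fun h => hwx (Fin.ext h)
      simp only [Fin.le_def] at hw ⊢
      omega

lemma interval (hconn : ∀ i, ((fan N).induce (B i)).Connected) {i : W} (hi : Free B i)
    {u v w : Fin (N + 2)} (hu : u ∈ B i) (hv : v ∈ B i) (huw : u ≤ w) (hwv : w ≤ v) : w ∈ B i := by
  obtain ⟨p⟩ := (hconn i).preconnected ⟨u, hu⟩ ⟨v, hv⟩
  exact walk_between (B i) hi p w (Or.inl ⟨huw, hwv⟩)

lemma below_lt (hconn : ∀ i, ((fan N).induce (B i)).Connected)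
    (hdisj : ∀ i j, i ≠ j → Disjoint (B i) (B j)) {i j : W} (hi : Free B i) (hj : Free B j)
    (hij : i ≠ j) (h : Below B i j) {a b : Fin (N + 2)} (ha : a ∈ B i) (hb : b ∈ B j) : a < b := by
  obtain ⟨u, hu, v, hv, huv⟩ := h
  by_contra hab
  push Not at hab
  have hd := hdisj i j hij
  have hne : b ≠ a := fun h => Set.disjoint_left.mp hd ha (h ▸ hb)
  rcases le_or_gt b u with hbu | hbu
  · have huv' : u ≤ v := by rw [Fin.le_def]; omega
    exact Set.disjoint_left.mp hd hu (interval hconn hj hb hv hbu huv')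
  · have h1 : v ≤ b := by rw [Fin.le_def]; rw [Fin.lt_def] at hbu; omega
    have huv' : u ≤ v := by rw [Fin.le_def]; omega
    exact Set.disjoint_left.mp hd (interval hconn hi hu ha huv' (h1.trans hab)) hv

lemma adj_cases {i j : W} (hfi : Free B i) (hfj : Free B j)
    (h : ∃ u ∈ B i, ∃ v ∈ B j, (fan N).Adj u v) : Below B i j ∨ Below B j i := by
  obtain ⟨u, hu, v, hv, huv⟩ := h
  have h1 := hfi u hu
  have h2 := hfj v hv
  simp only [fan] at huv
  rcases huv with h | h | h
  · omega
  · omega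
  · rcases h.2.2 with h3 | h3
    · exact Or.inl ⟨u, hu, v, hv, h3.symm⟩
    · exact Or.inr ⟨v, hv, u, hu, h3.symm⟩

lemma below_up (hconn : ∀ i, ((fan N).induce (B i)).Connected)
    (hdisj : ∀ i j, i ≠ j → Disjoint (B i) (B j)) {i j k : W} (hi : Free B i) (hj : Free B j)
    (hk : Free B k) (hij : i ≠ j) (hik : i ≠ k) (h1 : Below B i j) (h2 : Below B i k) : j = k := by
  by_contra hjk
  obtain ⟨u, hu, v, hv, huv⟩ := h1
  obtain ⟨u', hu', v', hv', huv'⟩ := h2
  have l1 := below_lt hconn hdisj hi hj hij ⟨u, hu, v, hv, huv⟩ hu' hv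
  have l2 := below_lt hconn hdisj hi hk hik ⟨u', hu', v', hv', huv'⟩ hu hv'
  rw [Fin.lt_def] at l1 l2
  have : v = v' := Fin.ext (by omega)
  exact Set.disjoint_left.mp (hdisj j k hjk) hv (this ▸ hv')

lemma below_down (hconn : ∀ i, ((fan N).induce (B i)).Connected)
    (hdisj : ∀ i j, i ≠ j → Disjoint (B i) (B j)) {i j k : W} (hi : Free B i) (hj : Free B j)
    (hk : Free B k) (hij : j ≠ i) (hik : k ≠ i) (h1 : Below B j i) (h2 : Below B k i) : j = k := by
  by_contra hjk
  obtain ⟨u, hu, v, hv, huv⟩ := h1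
  obtain ⟨u', hu', v', hv', huv'⟩ := h2
  have l1 := below_lt hconn hdisj hj hi hij ⟨u, hu, v, hv, huv⟩ hu hv'
  have l2 := below_lt hconn hdisj hk hi hik ⟨u', hu', v', hv', huv'⟩ hu' hv
  rw [Fin.lt_def] at l1 l2
  have : u = u' := Fin.ext (by omega)
  exact Set.disjoint_left.mp (hdisj j k hjk) hu (this ▸ hu')

/-- At most two branch sets are not free. -/
lemma card_free [Fintype W] [DecidablePred (Free B)]
    (hdisj : ∀ i j, i ≠ j → Disjoint (B i) (B j)) :
    Fintype.card W ≤ (univ.filter (Free B)).card + 2 := by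
  classical
  have h1 : (univ.filter fun i => ¬ Free B i).card ≤ 2 := by
    have hex : ∀ i, ¬ Free B i → ∃ v ∈ B i, (v : ℕ) < 2 := by
      intro i hi
      simp only [Free, not_forall, not_le] at hi
      obtain ⟨v, hv, hv2⟩ := hi
      exact ⟨v, hv, hv2⟩
    have h2 : (univ.filter fun i => ¬ Free B i).card ≤ (range 2).card := by
      refine card_le_card_of_injOn
        (fun i => if h : ¬ Free B i then ((hex i h).choose : ℕ) else 0) ?_ ?_
      · intro i hi
        have hi' : ¬ Free B i := by simpa using hi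
        simp only [hi', not_false_eq_true, dite_true, coe_range, Set.mem_Iio]
        exact (hex i hi').choose_spec.2
      · intro i hi j hj hij
        have hi' : ¬ Free B i := by simpa using hi
        have hj' : ¬ Free B j := by simpa using hj
        simp only [hi', hj', not_false_eq_true, dite_true] at hij
        by_contra hne
        have h3 := (hex i hi').choose_spec.1
        have h4 := (hex j hj').choose_spec.1
        rw [Fin.ext hij] at h3
        exact Set.disjoint_left.mp (hdisj i j hne) h3 h4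
    simpa using h2
  have h3 := card_filter_add_card_filter_not (s := (univ : Finset W)) (Free B)
  rw [card_univ] at h3
  omega

end

theorem fan_noK5 (N : ℕ) : ¬ IsMinor (⊤ : SimpleGraph (Fin 5)) (fan N) := by
  classical
  rintro ⟨B, hconn, hdisj, hadj⟩
  have hc := card_free (B := B) hdisj
  rw [Fintype.card_fin] at hc
  obtain ⟨i, j, k, hi, hj, hk, hij, hik, hjk⟩ := two_lt_card_iff.mp (show 2 < (univ.filter (Free B)).card by omega)
  rw [mem_filter] at hi hj hk
  replace hi := hi.2
  replace hj := hj.2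
  replace hk := hk.2
  have A : ∀ {x y : Fin 5}, x ≠ y → Free B x → Free B y → Below B x y ∨ Below B y x :=
    fun hxy hx hy => adj_cases hx hy (hadj _ _ hxy)
  have up : ∀ {x y z : Fin 5}, Free B x → Free B y → Free B z → x ≠ y → x ≠ z → y ≠ z →
      Below B x y → Below B x z → False :=
    fun hx hy hz hxy hxz hyz h1 h2 => hyz (below_up hconn hdisj hx hy hz hxy hxz h1 h2)
  have down : ∀ {x y z : Fin 5}, Free B x → Free B y → Free B z → y ≠ x → z ≠ x → y ≠ z →
      Below B y x → Below B z x → False :=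
    fun hx hy hz hxy hxz hyz h1 h2 => hyz (below_down hconn hdisj hx hy hz hxy hxz h1 h2)
  have hne : ∀ x, (B x).Nonempty := fun x => by
    obtain ⟨v⟩ := (hconn x).nonempty
    exact ⟨v, v.2⟩
  obtain ⟨ei, hei⟩ := hne i
  obtain ⟨ej, hej⟩ := hne j
  obtain ⟨ek, hek⟩ := hne k
  rcases A hij hi hj with h1 | h1 <;> rcases A hik hi hk with h2 | h2 <;>
    rcases A hjk hj hk with h3 | h3
  · exact up hi hj hk hij hik hjk h1 h2
  · exact up hi hj hk hij hik hjk h1 h2
  · have l1 := below_lt hconn hdisj hi hj hij h1 hei hej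
    have l2 := below_lt hconn hdisj hk hi hik.symm h2 hek hei
    have l3 := below_lt hconn hdisj hj hk hjk h3 hej hek
    exact lt_irrefl _ (l1.trans (l3.trans l2))
  · exact up hk hi hj hik.symm hjk.symm hij h2 h3
  · exact up hj hi hk hij.symm hjk hik h1 h3
  · have l1 := below_lt hconn hdisj hj hi hij.symm h1 hej hei
    have l2 := below_lt hconn hdisj hi hk hik h2 hei hek
    have l3 := below_lt hconn hdisj hk hj hjk.symm h3 hek hej
    exact lt_irrefl _ (l1.trans (l2.trans l3))
  · exact up hj hi hk hij.symm hjk hik h1 h3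
  · exact down hi hj hk hij.symm hik.symm hjk h1 h2

theorem fan_noK33 (N : ℕ) : ¬ IsMinor (completeBipartiteGraph (Fin 3) (Fin 3)) (fan N) := by
  classical
  rintro ⟨B, hconn, hdisj, hadj⟩
  have hc := card_free (B := B) hdisj
  rw [Fintype.card_sum, Fintype.card_fin] at hc
  have up : ∀ {x y z : Fin 3 ⊕ Fin 3}, Free B x → Free B y → Free B z → x ≠ y → x ≠ z → y ≠ z →
      Below B x y → Below B x z → False :=
    fun hx hy hz hxy hxz hyz h1 h2 => hyz (below_up hconn hdisj hx hy hz hxy hxz h1 h2)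
  have down : ∀ {x y z : Fin 3 ⊕ Fin 3}, Free B x → Free B y → Free B z → y ≠ x → z ≠ x →
      y ≠ z → Below B y x → Below B z x → False :=
    fun hx hy hz hxy hxz hyz h1 h2 => hyz (below_down hconn hdisj hx hy hz hxy hxz h1 h2)
  have hne : ∀ x, (B x).Nonempty := fun x => by
    obtain ⟨v⟩ := (hconn x).nonempty
    exact ⟨v, v.2⟩
  have A : ∀ {x y : Fin 3}, Free B (Sum.inl x) → Free B (Sum.inr y) →
      Below B (Sum.inl x) (Sum.inr y) ∨ Below B (Sum.inr y) (Sum.inl x) :=
    fun hx hy => adj_cases hx hy (hadj _ _ (by simp))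
  have nlr : ∀ {x y : Fin 3}, (Sum.inl x : Fin 3 ⊕ Fin 3) ≠ Sum.inr y := by simp
  have nrl : ∀ {x y : Fin 3}, (Sum.inr x : Fin 3 ⊕ Fin 3) ≠ Sum.inl y := by simp
  have nll : ∀ {x y : Fin 3}, x ≠ y → (Sum.inl x : Fin 3 ⊕ Fin 3) ≠ Sum.inl y := by
    intro x y h; simpa using h
  have nrr : ∀ {x y : Fin 3}, x ≠ y → (Sum.inr x : Fin 3 ⊕ Fin 3) ≠ Sum.inr y := by
    intro x y h; simpa using h
  -- numbers of free sets on the two sides
  set FL : Finset (Fin 3) := univ.filter fun x => Free B (Sum.inl x) with hFL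
  set FR : Finset (Fin 3) := univ.filter fun x => Free B (Sum.inr x) with hFR
  have hsplit : (univ.filter (Free B)).card = FL.card + FR.card := by
    have : univ.filter (Free B) = FL.disjSum FR := by
      ext x
      rcases x with x | x <;> simp [hFL, hFR]
    rw [this, card_disjSum]
  have hFL3 : FL.card ≤ 3 := (card_le_univ _).trans (by simp)
  have hFR3 : FR.card ≤ 3 := (card_le_univ _).trans (by simp)
  have hcase : (2 ≤ FL.card ∧ 2 ≤ FR.card) ∨ (1 ≤ FL.card ∧ 3 ≤ FR.card) ∨
      (3 ≤ FL.card ∧ 1 ≤ FR.card) := by omega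
  rcases hcase with ⟨h2L, h2R⟩ | ⟨h1L, h3R⟩ | ⟨h3L, h1R⟩
  · obtain ⟨a, b, ha, hb, hab⟩ := one_lt_card_iff.mp (show 1 < FL.card by omega)
    obtain ⟨c, d, hc', hd, hcd⟩ := one_lt_card_iff.mp (show 1 < FR.card by omega)
    rw [hFL, mem_filter] at ha hb
    rw [hFR, mem_filter] at hc' hd
    replace ha := ha.2
    replace hb := hb.2
    replace hc' := hc'.2
    replace hd := hd.2
    obtain ⟨ea, hea⟩ := hne (Sum.inl a)
    obtain ⟨eb, heb⟩ := hne (Sum.inl b)
    obtain ⟨ec, hec⟩ := hne (Sum.inr c)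
    obtain ⟨ed, hed⟩ := hne (Sum.inr d)
    rcases A ha hc' with h1 | h1 <;> rcases A ha hd with h2 | h2
    · exact up ha hc' hd nlr nlr (nrr hcd) h1 h2
    · -- d < a < c
      rcases A hb hc' with h3 | h3
      · exact down hc' ha hb nlr nlr (nll hab) h1 h3
      · rcases A hb hd with h4 | h4
        · have l1 := below_lt hconn hdisj hb hd nlr h4 heb hed
          have l2 := below_lt hconn hdisj hd ha nrl h2 hed hea
          have l3 := below_lt hconn hdisj ha hc' nlr h1 hea hec
          have l4 := below_lt hconn hdisj hc' hb nrl h3 hec heb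
          exact lt_irrefl _ (l1.trans (l2.trans (l3.trans l4)))
        · exact up hd ha hb nrl nrl (nll hab) h2 h4
    · -- c < a < d
      rcases A hb hd with h3 | h3
      · exact down hd ha hb nlr nlr (nll hab) h2 h3
      · rcases A hb hc' with h4 | h4
        · have l1 := below_lt hconn hdisj hb hc' nlr h4 heb hec
          have l2 := below_lt hconn hdisj hc' ha nrl h1 hec hea
          have l3 := below_lt hconn hdisj ha hd nlr h2 hea hed
          have l4 := below_lt hconn hdisj hd hb nrl h3 hed heb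
          exact lt_irrefl _ (l1.trans (l2.trans (l3.trans l4)))
        · exact up hc' ha hb nrl nrl (nll hab) h1 h4
    · exact down ha hc' hd nrl nrl (nrr hcd) h1 h2
  · obtain ⟨a, ha⟩ := card_pos.mp h1L
    obtain ⟨c, d, e, hc', hd, he, hcd, hce, hde⟩ := two_lt_card_iff.mp (show 2 < FR.card by omega)
    rw [hFL, mem_filter] at ha
    rw [hFR, mem_filter] at hc' hd he
    replace ha := ha.2
    replace hc' := hc'.2
    replace hd := hd.2
    replace he := he.2
    rcases A ha hc' with h1 | h1 <;> rcases A ha hd with h2 | h2 <;> rcases A ha he with h3 | h3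
    · exact up ha hc' hd nlr nlr (nrr hcd) h1 h2
    · exact up ha hc' hd nlr nlr (nrr hcd) h1 h2
    · exact up ha hc' he nlr nlr (nrr hce) h1 h3
    · exact down ha hd he nrl nrl (nrr hde) h2 h3
    · exact up ha hd he nlr nlr (nrr hde) h2 h3
    · exact down ha hc' he nrl nrl (nrr hce) h1 h3
    · exact down ha hc' hd nrl nrl (nrr hcd) h1 h2
    · exact down ha hc' hd nrl nrl (nrr hcd) h1 h2
  · obtain ⟨a, ha⟩ := card_pos.mp h1R
    obtain ⟨c, d, e, hc', hd, he, hcd, hce, hde⟩ := two_lt_card_iff.mp (show 2 < FL.card by omega)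
    rw [hFR, mem_filter] at ha
    rw [hFL, mem_filter] at hc' hd he
    replace ha := ha.2
    replace hc' := hc'.2
    replace hd := hd.2
    replace he := he.2
    rcases A hc' ha with h1 | h1 <;> rcases A hd ha with h2 | h2 <;> rcases A he ha with h3 | h3
    · exact down ha hc' hd nlr nlr (nll hcd) h1 h2
    · exact down ha hc' hd nlr nlr (nll hcd) h1 h2
    · exact down ha hc' he nlr nlr (nll hce) h1 h3
    · exact up ha hd he nrl nrl (nll hde) h2 h3
    · exact down ha hd he nlr nlr (nll hde) h2 h3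
    · exact up ha hc' he nrl nrl (nll hce) h1 h3
    · exact up ha hc' hd nrl nrl (nll hcd) h1 h2
    · exact up ha hc' hd nrl nrl (nll hcd) h1 h2

theorem fan_planar (N : ℕ) : Planar (fan N) := ⟨fan_noK5 N, fan_noK33 N⟩

end Pool.Agent.Circ
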