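import Pool.Agent.Helper12.Circ.Defs

namespace Pool.Agent.Circ

/-- A strict quadratic inequality with a real solution has an integral solution. -/
theorem int_dir {V ι : Type*} [Fintype V] [Fintype ι] (b : ι → V → ℤ) (r : ι → ℝ) (α : ι → ℝ)
    (e : ι) (y : V → ℝ)
    (hy : α e * ∑ f, r f * (∑ v, (b f v : ℝ) * y v) ^ 2 < r e * (∑ v, (b e v : ℝ) * y v) ^ 2) :
    ∃ z : V → ℤ, α e * ∑ f, r f * (∑ v, (b f v : ℝ) * z v) ^ 2
      < r e * (∑ v, (b e v : ℝ) * z v) ^ 2 := by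
  classical
  let g : (V → ℝ) → ℝ := fun y =>
    r e * (∑ v, (b e v : ℝ) * y v) ^ 2 - α e * ∑ f, r f * (∑ v, (b f v : ℝ) * y v) ^ 2
  have hg : Continuous g := by
    unfold g
    fun_prop
  have hopen : IsOpen {y | 0 < g y} := isOpen_lt continuous_const hg
  have hne : {y | 0 < g y}.Nonempty := ⟨y, by simp only [Set.mem_setOf_eq, g]; linarith⟩
  have hd : DenseRange (Pi.map (fun (_ : V) (q : ℚ) => (q : ℝ))) :=
    DenseRange.piMap fun _ => Rat.denseRange_cast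
  obtain ⟨q, hq⟩ := hd.exists_mem_open hopen hne
  simp only [Set.mem_setOf_eq] at hq
  -- clear denominators
  set N : ℕ := ∏ v, (q v).den with hN
  have hNpos : 0 < N := Finset.prod_pos fun v _ => (q v).den_pos
  have hz : ∀ v, ∃ z : ℤ, (z : ℝ) = N * (q v : ℝ) := by
    intro v
    have hdvd : (q v).den ∣ N := Finset.dvd_prod_of_mem _ (Finset.mem_univ v)
    obtain ⟨m, hm⟩ := hdvd
    refine ⟨m * (q v).num, ?_⟩
    have h1 : ((q v : ℚ) : ℝ) = (q v).num / (q v).den := by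
      exact_mod_cast (Rat.num_div_den (q v)).symm
    have h2 : ((q v).den : ℝ) ≠ 0 := by
      exact_mod_cast (q v).den_pos.ne'
    rw [h1, hm]
    push_cast
    field_simp
  choose z hz using hz
  refine ⟨z, ?_⟩
  have hsum : ∀ f, ∑ v, (b f v : ℝ) * (z v : ℝ) = N * ∑ v, (b f v : ℝ) * (q v : ℝ) := by
    intro f
    rw [Finset.mul_sum]
    refine Finset.sum_congr rfl fun v _ => ?_
    rw [hz v]
    ring
  have hNR : (0 : ℝ) < N := by exact_mod_cast hNpos
  have key : r e * (∑ v, (b e v : ℝ) * (z v : ℝ)) ^ 2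
      - α e * ∑ f, r f * (∑ v, (b f v : ℝ) * (z v : ℝ)) ^ 2
      = (N : ℝ) ^ 2 * g (Pi.map (fun (_ : V) (q : ℚ) => (q : ℝ)) q) := by
    simp only [g, hsum, Pi.map_apply]
    have : ∑ f, r f * ((N : ℝ) * ∑ v, (b f v : ℝ) * (q v : ℝ)) ^ 2
        = (N : ℝ) ^ 2 * ∑ f, r f * (∑ v, (b f v : ℝ) * (q v : ℝ)) ^ 2 := by
      rw [Finset.mul_sum]
      refine Finset.sum_congr rfl fun f _ => ?_
      ring
    rw [this]
    ring
  have hpos : 0 < (N : ℝ) ^ 2 * g (Pi.map (fun (_ : V) (q : ℚ) => (q : ℝ)) q) := by positivity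
  linarith

end Pool.Agent.Circ
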