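import Pool.Agent.Helper12.Circ.Upper
import Pool.Agent.Helper12.Circ.FanPlanar
import Pool.Agent.Helper98.CircMader
import Pool.Agent.Helper84.CircFanLower

namespace Pool.Agent.Circ

open Finset

lemma eIn_small {V : Type*} [LinearOrder V] (G : SimpleGraph V) (B : Finset V)
    (hB : B.card ≤ 1) : eIn G B = 0 := by
  classical
  unfold eIn
  rw [card_eq_zero, filter_eq_empty_iff]
  rintro ⟨u, v⟩ huv ⟨hlt, _⟩
  rw [mem_product] at huv
  have := card_le_one.mp hB u huv.1 v huv.2
  simp only at hlt
  exact absurd this hlt.ne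

lemma eIn_two {V : Type*} [LinearOrder V] (G : SimpleGraph V) (B : Finset V)
    (hB : B.card = 2) : eIn G B ≤ 1 := by
  classical
  unfold eIn
  obtain ⟨x, y, hxy, rfl⟩ := card_eq_two.mp hB
  rw [card_le_one]
  rintro ⟨u, v⟩ huv ⟨u', v'⟩ huv'
  simp only [mem_filter, mem_product, mem_insert, mem_singleton] at huv huv'
  obtain ⟨⟨hu, hv⟩, hlt, _⟩ := huv
  obtain ⟨⟨hu', hv'⟩, hlt', _⟩ := huv'
  rcases hu with rfl | rfl <;> rcases hv with rfl | rfl <;> rcases hu' with rfl | rfl <;>
    rcases hv' with rfl | rfl <;>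
    first | rfl | exact absurd hlt (lt_irrefl _) | exact absurd hlt' (lt_irrefl _) |
      exact absurd (hlt.trans hlt') (lt_irrefl _)

/-- Every graph without a `K₅` minor is circularly `t`-choosable for `t ≥ 6`. -/
theorem choosable_of_no_K5 {V : Type*} [Fintype V] [LinearOrder V] (G : SimpleGraph V)
    (h : ¬ IsMinor (⊤ : SimpleGraph (Fin 5)) G) {t : ℝ} (ht : 6 ≤ t) : Choosable G t := by
  classical
  intro k d hd hdk L hL hcard
  have hL6 : ∀ v, 6 * d ≤ (L v).card := by
    intro v
    have h1 := hcard v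
    have hd' : (0 : ℝ) ≤ d := by positivity
    have h2 : (6 * d : ℝ) ≤ (L v).card := by nlinarith
    exact_mod_cast h2
  have he : ∀ B : Finset V, 1 ≤ B.card → eIn G B + 1 ≤ 3 * B.card - 1 - (if B.card = 1 then 1 else 2) + 1
      ∧ (2 ≤ B.card → eIn G B + 4 ≤ 3 * B.card) := by
    intro B hB
    rcases Nat.lt_or_ge B.card 3 with h3 | h3
    · rcases Nat.lt_or_ge B.card 2 with h2 | h2
      · have : eIn G B = 0 := eIn_small G B (by omega)
        have hB1 : B.card = 1 := by omega
        simp [this, hB1]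
      · have hB2 : B.card = 2 := by omega
        have := eIn_two G B hB2
        simp [hB2]
        omega
    · have := mader G h B h3
      constructor
      · split_ifs <;> omega
      · intro _; omega
  refine colour_of_cond G k d hd (by omega) L hL ?_ ?_
  · intro B hB
    have hB1 : 1 ≤ B.card := hB.card_pos
    have h1 : eIn G B < 3 * B.card := by
      have := (he B hB1).1
      split_ifs at this <;> omega
    calc 2 * d * eIn G B < 2 * d * (3 * B.card) := by
          apply Nat.mul_lt_mul_of_pos_left h1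
          omega
      _ = ∑ v ∈ B, 6 * d := by rw [sum_const, smul_eq_mul]; ring
      _ ≤ ∑ v ∈ B, (L v).card := sum_le_sum fun v _ => hL6 v
  · intro B hB
    obtain ⟨v, hv⟩ : B.Nonempty := by
      rw [← card_pos]; omega
    have hk : 6 * d ≤ k := by
      have h1 := card_le_card (hL v)
      rw [card_range] at h1
      exact (hL6 v).trans h1
    have h1 : eIn G B < 3 * (B.card - 1) := by
      have := (he B (by omega)).2 hB
      omega
    calc 2 * d * eIn G B < 2 * d * (3 * (B.card - 1)) := by
          apply Nat.mul_lt_mul_of_pos_left h1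
          omega
      _ = 6 * d * (B.card - 1) := by ring
      _ ≤ k * (B.card - 1) := Nat.mul_le_mul_right _ hk

theorem cch_le_six {V : Type*} [Fintype V] [LinearOrder V] (G : SimpleGraph V)
    (h : Planar G) : cch G ≤ 6 :=
  csInf_le ⟨1, fun _ ht => ht.1⟩ ⟨by norm_num, choosable_of_no_K5 G h.1 le_rfl⟩

theorem le_cch_fan (d : ℕ) (hd : 1 ≤ d) : ∃ N : ℕ, 6 - 3 / (d : ℝ) ≤ cch (fan N) := by
  obtain ⟨N, hN⟩ := fan_lower d hd
  refine ⟨N, le_csInf ⟨6, by norm_num, choosable_of_no_K5 _ (fan_planar N).1 le_rfl⟩ ?_⟩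
  intro t ht
  by_contra hlt
  push Not at hlt
  exact hN t hlt.le ht.2

/-- The least upper bound of the circular choosabilities of planar graphs is `6`. -/
theorem main : IsLUB {x : ℝ | ∃ (n : ℕ) (G : SimpleGraph (Fin n)), Planar G ∧ x = cch G} 6 := by
  constructor
  · rintro x ⟨n, G, hG, rfl⟩
    exact cch_le_six G hG
  · intro x hx
    by_contra hlt
    push Not at hlt
    obtain ⟨d, hd⟩ := exists_nat_gt (3 / (6 - x))
    have hpos : 0 < 6 - x := by linarith
    have hd0 : 0 < d := by
      have : (0 : ℝ) < d := lt_trans (by positivity) hd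
      exact_mod_cast this
    obtain ⟨N, hN⟩ := le_cch_fan d hd0
    have h1 : cch (fan N) ≤ x := hx ⟨N + 2, fan N, fan_planar N, rfl⟩
    have hdR : (0 : ℝ) < d := by exact_mod_cast hd0
    have h2 : 3 / (d : ℝ) < 6 - x := by
      rw [div_lt_iff₀ hpos] at hd
      rw [div_lt_iff₀ hdR]
      linarith
    linarith

end Pool.Agent.Circ
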