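import Pool.Agent.Helper12.Circ.Defs

namespace Pool.Agent.Circ

open Finset

theorem rank_cond {V : Type*} [Fintype V] [LinearOrder V] (G : SimpleGraph V) (a : ℝ) (ω : V → ℝ)
    (ha : 0 ≤ a) (hω : ∀ v, 0 ≤ ω v)
    (h1 : ∀ B : Finset V, B.Nonempty → a * eIn G B + ∑ v ∈ B, ω v < B.card)
    (h2 : ∀ B : Finset V, 2 ≤ B.card → a * eIn G B < (B.card : ℝ) - 1)
    (F : Finset ({p : V × V // p.1 < p.2 ∧ G.Adj p.1 p.2} ⊕ V)) (hF : F.Nonempty) :
    ∑ e ∈ F, Sum.elim (fun _ => a) ω e < Module.finrank ℝ (Submodule.span ℝ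
      ((Sum.elim (fun (p : {p : V × V // p.1 < p.2 ∧ G.Adj p.1 p.2}) (v : V) =>
        ((if v = p.1.1 then 1 else 0) - (if v = p.1.2 then 1 else 0) : ℝ))
        (fun (u v : V) => (if v = u then 1 else 0 : ℝ))) '' (F : Set _))) := by
  classical
  set w : ({p : V × V // p.1 < p.2 ∧ G.Adj p.1 p.2} ⊕ V) → V → ℝ :=
    Sum.elim (fun (p : {p : V × V // p.1 < p.2 ∧ G.Adj p.1 p.2}) (v : V) =>
        ((if v = p.1.1 then 1 else 0) - (if v = p.1.2 then 1 else 0) : ℝ))
        (fun (u v : V) => (if v = u then 1 else 0 : ℝ)) with hw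
  set S : Submodule ℝ (V → ℝ) := Submodule.span ℝ (w '' (F : Set _)) with hS
  -- the graph of the edges in F
  let H : SimpleGraph V := SimpleGraph.fromRel
    (fun u v => ∃ h : u < v ∧ G.Adj u v, Sum.inl ⟨(u, v), h⟩ ∈ F)
  let mk : V → H.ConnectedComponent := H.connectedComponentMk
  let supp : H.ConnectedComponent → Finset V := fun C => univ.filter fun v => mk v = C
  let free : H.ConnectedComponent → Prop := fun C => ∀ v ∈ supp C, Sum.inr v ∉ F
  have hadj : ∀ u v, H.Adj u v → (Pi.single u (1 : ℝ) - Pi.single v 1 : V → ℝ) ∈ S := by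
    intro u v huv
    rw [SimpleGraph.fromRel_adj] at huv
    obtain ⟨_, ⟨h, hF'⟩ | ⟨h, hF'⟩⟩ := huv
    · have h3 : w (Sum.inl ⟨(u, v), h⟩) ∈ S := Submodule.subset_span ⟨_, hF', rfl⟩
      have h4 : w (Sum.inl ⟨(u, v), h⟩) = (Pi.single u (1 : ℝ) - Pi.single v 1 : V → ℝ) := by
        funext x
        simp [hw, Pi.single_apply]
      rwa [h4] at h3
    · have h3 : w (Sum.inl ⟨(v, u), h⟩) ∈ S := Submodule.subset_span ⟨_, hF', rfl⟩
      have h4 : w (Sum.inl ⟨(v, u), h⟩) = -(Pi.single u (1 : ℝ) - Pi.single v 1 : V → ℝ) := by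
        funext x
        simp [hw, Pi.single_apply]
      rw [h4] at h3
      exact (Submodule.neg_mem_iff S).mp h3
  have hreach : ∀ u v, mk u = mk v → (Pi.single u (1 : ℝ) - Pi.single v 1 : V → ℝ) ∈ S := by
    intro u v huv
    have hr : H.Reachable u v := SimpleGraph.ConnectedComponent.exact huv
    obtain ⟨p⟩ := hr
    induction p with
    | nil => simp
    | @cons x y z hxy _ ih =>
      have h3 := S.add_mem (hadj x y hxy) (ih (SimpleGraph.ConnectedComponent.sound ⟨by assumption⟩))
      convert h3 using 1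
      abel
  -- representatives
  have hrep : ∀ C : H.ConnectedComponent, ∃ v, mk v = C := fun C => C.exists_rep
  choose rep hrep using hrep
  set T : Submodule ℝ (V → ℝ) := Submodule.span ℝ
    (((univ.filter free).image fun C => (Pi.single (rep C) (1 : ℝ) : V → ℝ) : Finset (V → ℝ)) :
      Set (V → ℝ)) with hT
  have htop : S ⊔ T = ⊤ := by
    rw [eq_top_iff, ← (Pi.basisFun ℝ V).span_eq, Submodule.span_le]
    rintro _ ⟨v, rfl⟩
    rw [Pi.basisFun_apply]
    by_cases hfree : free (mk v)
    · have h3 : (Pi.single v (1 : ℝ) - Pi.single (rep (mk v)) 1 : V → ℝ) ∈ S :=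
        hreach _ _ (hrep (mk v)).symm
      have h4 : (Pi.single (rep (mk v)) (1 : ℝ) : V → ℝ) ∈ T := by
        refine Submodule.subset_span ?_
        rw [mem_coe, mem_image]
        exact ⟨mk v, by simp [hfree], rfl⟩
      have h5 := (S ⊔ T).add_mem (Submodule.mem_sup_left h3) (Submodule.mem_sup_right h4)
      simpa using h5
    · simp only [free, not_forall, not_not] at hfree
      obtain ⟨u, hu, huF⟩ := hfree
      have hu' : mk u = mk v := by simpa [supp] using hu
      have h3 : (Pi.single v (1 : ℝ) - Pi.single u 1 : V → ℝ) ∈ S := hreach _ _ hu'.symm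
      have h4 : (Pi.single u (1 : ℝ) : V → ℝ) ∈ S := by
        have h5 : w (Sum.inr u) ∈ S := Submodule.subset_span ⟨_, huF, rfl⟩
        have h6 : w (Sum.inr u) = (Pi.single u (1 : ℝ) : V → ℝ) := by
          funext x
          simp [hw, Pi.single_apply]
        rwa [h6] at h5
      have h5 := S.add_mem h3 h4
      refine Submodule.mem_sup_left ?_
      simpa using h5
  have hdim : (Fintype.card V : ℝ) ≤ Module.finrank ℝ S + (univ.filter free).card := by
    have h3 := Submodule.finrank_add_le_finrank_add_finrank S T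
    rw [htop, finrank_top, Module.finrank_fintype_fun_eq_card] at h3
    have h4 : Module.finrank ℝ T ≤ (univ.filter free).card :=
      (finrank_span_finset_le_card _).trans card_image_le
    have h5 : Fintype.card V ≤ Module.finrank ℝ S + (univ.filter free).card := by omega
    exact_mod_cast h5
  -- the component of an element of F
  let comp : ({p : V × V // p.1 < p.2 ∧ G.Adj p.1 p.2} ⊕ V) → H.ConnectedComponent :=
    Sum.elim (fun p => mk p.1.1) mk
  have hα : ∀ e : ({p : V × V // p.1 < p.2 ∧ G.Adj p.1 p.2} ⊕ V),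
      0 ≤ Sum.elim (fun _ => a) ω e := by
    rintro (p | v)
    · exact ha
    · exact hω v
  have hterm : ∀ C : H.ConnectedComponent,
      ∑ e ∈ F.filter (fun e => comp e = C), Sum.elim (fun _ => a) ω e ≤
        a * eIn G (supp C) + ∑ v ∈ (supp C).filter (fun v => Sum.inr v ∈ F), ω v := by
    intro C
    set P : Finset {p : V × V // p.1 < p.2 ∧ G.Adj p.1 p.2} :=
      univ.filter fun p => p.1.1 ∈ supp C ∧ p.1.2 ∈ supp C with hP
    have hsub : F.filter (fun e => comp e = C) ⊆
        P.disjSum ((supp C).filter (fun v => Sum.inr v ∈ F)) := by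
      rintro (p | v) he
      · rw [mem_filter] at he
        rw [inl_mem_disjSum, hP, mem_filter]
        refine ⟨mem_univ _, ?_, ?_⟩
        · have : mk p.1.1 = C := he.2
          simp [supp, this]
        · have h3 : mk p.1.1 = C := he.2
          have h4 : H.Adj p.1.1 p.1.2 := by
            rw [SimpleGraph.fromRel_adj]
            exact ⟨p.2.1.ne, Or.inl ⟨p.2, he.1⟩⟩
          have h5 : mk p.1.2 = mk p.1.1 :=
            (SimpleGraph.ConnectedComponent.sound h4.reachable).symm
          simp [supp, h5, h3]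
      · rw [mem_filter] at he
        rw [inr_mem_disjSum, mem_filter]
        refine ⟨?_, he.1⟩
        have : mk v = C := he.2
        simp [supp, this]
    refine (sum_le_sum_of_subset_of_nonneg hsub fun e _ _ => hα e).trans ?_
    rw [sum_disjSum]
    simp only [Sum.elim_inl, Sum.elim_inr, sum_const, nsmul_eq_mul]
    have hcard : P.card ≤ eIn G (supp C) := by
      unfold eIn
      refine card_le_card_of_injOn (fun p => p.1) ?_ (fun p _ q _ h => Subtype.ext h)
      intro p hp
      have hp' : p.1.1 ∈ supp C ∧ p.1.2 ∈ supp C := by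
        have := hp
        rw [mem_coe, hP, mem_filter] at this
        exact this.2
      simp only [coe_filter, mem_product, Set.mem_setOf_eq]
      exact ⟨hp', p.2⟩
    have : (P.card : ℝ) ≤ eIn G (supp C) := by exact_mod_cast hcard
    nlinarith
  have hsuppne : ∀ C, (supp C).Nonempty := fun C => ⟨rep C, by simp [supp, hrep C]⟩
  have hle : ∀ C : H.ConnectedComponent,
      a * eIn G (supp C) + ∑ v ∈ (supp C).filter (fun v => Sum.inr v ∈ F), ω v ≤
        (supp C).card - (if free C then 1 else 0) := by
    intro C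
    split_ifs with hfree
    · have h3 : (supp C).filter (fun v => Sum.inr v ∈ F) = ∅ := by
        rw [filter_eq_empty_iff]
        exact fun v hv => hfree v hv
      rw [h3, sum_empty, add_zero]
      rcases Nat.lt_or_ge (supp C).card 2 with h4 | h4
      · have h5 : (supp C).card = 1 := by
          have := (hsuppne C).card_pos
          omega
        have h6 : eIn G (supp C) = 0 := by
          unfold eIn
          rw [card_eq_zero, filter_eq_empty_iff]
          rintro ⟨u, v⟩ huv ⟨hlt, _⟩
          rw [mem_product] at huv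
          have := card_le_one.mp h5.le u huv.1 v huv.2
          simp only at hlt
          exact absurd this hlt.ne
        rw [h5, h6]
        simp
      · exact (h2 _ h4).le
    · have h3 := h1 (supp C) (hsuppne C)
      have h4 : ∑ v ∈ (supp C).filter (fun v => Sum.inr v ∈ F), ω v ≤ ∑ v ∈ supp C, ω v :=
        sum_le_sum_of_subset_of_nonneg (filter_subset _ _) fun v _ _ => hω v
      linarith
  -- strictness at one component
  obtain ⟨e₀, he₀⟩ := hF
  have hlt : a * eIn G (supp (comp e₀)) +
      ∑ v ∈ (supp (comp e₀)).filter (fun v => Sum.inr v ∈ F), ω v <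
        (supp (comp e₀)).card - (if free (comp e₀) then 1 else 0) := by
    split_ifs with hfree
    · have h3 : (supp (comp e₀)).filter (fun v => Sum.inr v ∈ F) = ∅ := by
        rw [filter_eq_empty_iff]
        exact fun v hv => hfree v hv
      rw [h3, sum_empty, add_zero]
      refine h2 _ ?_
      rcases e₀ with p | v
      · have h4 : H.Adj p.1.1 p.1.2 := by
          rw [SimpleGraph.fromRel_adj]
          exact ⟨p.2.1.ne, Or.inl ⟨p.2, he₀⟩⟩
        have h5 : mk p.1.2 = mk p.1.1 :=
          (SimpleGraph.ConnectedComponent.sound h4.reachable).symm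
        rw [show (2 : ℕ) = ({p.1.1, p.1.2} : Finset V).card from (card_pair p.2.1.ne).symm]
        refine card_le_card ?_
        intro x hx
        rw [mem_insert, mem_singleton] at hx
        rcases hx with rfl | rfl
        · simp [supp, comp]
        · simp [supp, comp, h5]
      · exact absurd he₀ (hfree v (by simp [supp, comp]))
    · have h3 := h1 (supp (comp e₀)) (hsuppne _)
      have h4 : ∑ v ∈ (supp (comp e₀)).filter (fun v => Sum.inr v ∈ F), ω v ≤
          ∑ v ∈ supp (comp e₀), ω v :=
        sum_le_sum_of_subset_of_nonneg (filter_subset _ _) fun v _ _ => hω v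
      linarith
  have hsum : ∑ e ∈ F, Sum.elim (fun _ => a) ω e =
      ∑ C, ∑ e ∈ F.filter (fun e => comp e = C), Sum.elim (fun _ => a) ω e :=
    (sum_fiberwise F comp _).symm
  have hcardV : ∑ C : H.ConnectedComponent, ((supp C).card : ℝ) = Fintype.card V := by
    have h3 : ∑ C : H.ConnectedComponent, (supp C).card = Fintype.card V := by
      rw [← card_univ]
      exact (card_eq_sum_card_fiberwise (f := mk) (s := univ) (t := univ)
        (fun _ _ => mem_univ _)).symm
    exact_mod_cast h3
  rw [hsum]
  calc ∑ C, ∑ e ∈ F.filter (fun e => comp e = C), Sum.elim (fun _ => a) ω e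
      ≤ ∑ C, (a * eIn G (supp C) + ∑ v ∈ (supp C).filter (fun v => Sum.inr v ∈ F), ω v) :=
        sum_le_sum fun C _ => hterm C
    _ < ∑ C : H.ConnectedComponent, (((supp C).card : ℝ) - (if free C then 1 else 0)) :=
        sum_lt_sum (fun C _ => hle C) ⟨comp e₀, mem_univ _, hlt⟩
    _ = Fintype.card V - (univ.filter free).card := by
        rw [sum_sub_distrib, hcardV, sum_boole]
    _ ≤ Module.finrank ℝ S := by linarith

end Pool.Agent.Circ
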