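import Pool.Agent.Helper84.CircTorus
import Pool.Agent.Helper5.CircCond
import Pool.Agent.Helper12.Circ.Rank
import Pool.Agent.Helper12.Circ.IntDir

namespace Pool.Agent.Circ

open Finset

/-- From a point of the discrete torus to colours: the arithmetic of rounding. -/
lemma round_ok {k d Q X Y : ℕ} (hQ : 0 < Q) (hX : X < k * Q) (hY : Y < k * Q)
    (h : ∀ i : ℤ, |i| ≤ d * Q - 1 → ¬ ((k * Q : ℕ) : ℤ) ∣ ((X : ℤ) - Y) - i) :
    (d : ℤ) ≤ |((X / Q : ℕ) : ℤ) - (Y / Q : ℕ)| ∧
      |((X / Q : ℕ) : ℤ) - (Y / Q : ℕ)| ≤ (k : ℤ) - d := by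
  set a : ℤ := ((X / Q : ℕ) : ℤ) with ha
  set b : ℤ := ((Y / Q : ℕ) : ℤ) with hb
  have hQ' : (0 : ℤ) < Q := by exact_mod_cast hQ
  have hXdiv : (X : ℤ) = Q * a + ((X % Q : ℕ) : ℤ) := by
    rw [ha]; exact_mod_cast (Nat.div_add_mod X Q).symm
  have hYdiv : (Y : ℤ) = Q * b + ((Y % Q : ℕ) : ℤ) := by
    rw [hb]; exact_mod_cast (Nat.div_add_mod Y Q).symm
  have hXm : ((X % Q : ℕ) : ℤ) < Q := by exact_mod_cast Nat.mod_lt X hQ
  have hYm : ((Y % Q : ℕ) : ℤ) < Q := by exact_mod_cast Nat.mod_lt Y hQ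
  have hXm0 : (0 : ℤ) ≤ ((X % Q : ℕ) : ℤ) := by positivity
  have hYm0 : (0 : ℤ) ≤ ((Y % Q : ℕ) : ℤ) := by positivity
  constructor
  · by_contra hlt
    push Not at hlt
    have h1 : |a - b| ≤ d - 1 := by omega
    obtain ⟨h2, h3⟩ := abs_le.mp h1
    refine h ((X : ℤ) - Y) ?_ ⟨0, by ring⟩
    rw [abs_le]
    constructor
    · nlinarith
    · nlinarith
  · by_contra hlt
    push Not at hlt
    have hak : a < k := by
      rw [ha]; exact_mod_cast Nat.div_lt_of_lt_mul (by rw [mul_comm]; exact hX)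
    have hbk : b < k := by
      rw [hb]; exact_mod_cast Nat.div_lt_of_lt_mul (by rw [mul_comm]; exact hY)
    have ha0 : 0 ≤ a := by rw [ha]; positivity
    have hb0 : 0 ≤ b := by rw [hb]; positivity
    have hcase : (k : ℤ) - d + 1 ≤ a - b ∨ (k : ℤ) - d + 1 ≤ b - a := by
      rcases abs_cases (a - b) with ⟨h1, _⟩ | ⟨h1, _⟩ <;> omega
    rcases hcase with hc | hc
    · refine h ((X : ℤ) - Y - k * Q) ?_ ⟨1, by push_cast; ring⟩
      rw [abs_le]
      constructor
      · nlinarith
      · have : (X : ℤ) < k * Q := by exact_mod_cast hX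
        nlinarith
    · refine h ((X : ℤ) - Y + k * Q) ?_ ⟨-1, by push_cast; ring⟩
      rw [abs_le]
      constructor
      · have : (Y : ℤ) < k * Q := by exact_mod_cast hY
        nlinarith
      · nlinarith

lemma eIn_le {V : Type*} [Fintype V] [LinearOrder V] (G : SimpleGraph V) (B : Finset V) :
    eIn G B ≤ Fintype.card V ^ 2 := by
  classical
  unfold eIn
  calc _ ≤ (B ×ˢ B).card := by convert card_filter_le _ _
    _ ≤ (univ : Finset (V × V)).card := card_le_card (subset_univ _)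
    _ = _ := by rw [card_univ, Fintype.card_prod, sq]

/-- The main upper bound: sparse graphs can be coloured from large lists. -/
theorem colour_of_cond {V : Type*} [Fintype V] [LinearOrder V] (G : SimpleGraph V) (k d : ℕ)
    (hd : 1 ≤ d) (hk : 1 ≤ k) (L : V → Finset ℕ) (hL : ∀ v, L v ⊆ range k)
    (h1 : ∀ B : Finset V, B.Nonempty → 2 * d * eIn G B < ∑ v ∈ B, (L v).card)
    (h2 : ∀ B : Finset V, 2 ≤ B.card → 2 * d * eIn G B < k * (B.card - 1)) :
    ∃ c : V → ℕ, IsColouring G k d c ∧ ∀ v, c v ∈ L v := by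
  classical
  have hkR : (0 : ℝ) < k := by exact_mod_cast hk
  set n : ℕ := Fintype.card V with hn
  set δ : ℝ := 1 / (k * ((n : ℝ) ^ 2 + 1)) with hδ
  have hδpos : 0 < δ := by positivity
  set a : ℝ := 2 * d / k + δ with ha
  set ω : V → ℝ := fun v => 1 - (L v).card / k with hω
  have hLk : ∀ v, ((L v).card : ℝ) ≤ k := fun v => by
    have := card_le_card (hL v)
    rw [card_range] at this
    exact_mod_cast this
  have hω0 : ∀ v, 0 ≤ ω v := by
    intro v
    simp only [hω, sub_nonneg]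
    rw [div_le_one hkR]
    exact hLk v
  have ha0 : 0 ≤ a := by positivity
  have hδe : ∀ B : Finset V, δ * eIn G B < 1 / k := by
    intro B
    have h := eIn_le G B
    have h' : (eIn G B : ℝ) ≤ (n : ℝ) ^ 2 := by exact_mod_cast h
    calc δ * eIn G B ≤ δ * (n : ℝ) ^ 2 := by gcongr
      _ < δ * ((n : ℝ) ^ 2 + 1) := by gcongr; linarith
      _ = 1 / k := by rw [hδ]; field_simp
  have c1 : ∀ B : Finset V, B.Nonempty → a * eIn G B + ∑ v ∈ B, ω v < B.card := by
    intro B hB
    have h := h1 B hB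
    have h' : (2 * d * eIn G B : ℝ) + 1 ≤ ∑ v ∈ B, ((L v).card : ℝ) := by exact_mod_cast h
    have hs : ∑ v ∈ B, ω v = B.card - (∑ v ∈ B, ((L v).card : ℝ)) / k := by
      simp only [hω, sum_sub_distrib, sum_const, nsmul_eq_mul, mul_one, sum_div]
    rw [hs, ha]
    have h3 : (2 * d / k + δ) * eIn G B + ((B.card : ℝ) - (∑ v ∈ B, ((L v).card : ℝ)) / k)
        = B.card + δ * eIn G B - ((∑ v ∈ B, ((L v).card : ℝ)) - 2 * d * eIn G B) / k := by
      field_simp
      ring
    rw [h3]
    have h4 : 1 / (k : ℝ) ≤ ((∑ v ∈ B, ((L v).card : ℝ)) - 2 * d * eIn G B) / k := by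
      gcongr
      linarith
    have := hδe B
    linarith
  have c2 : ∀ B : Finset V, 2 ≤ B.card → a * eIn G B < (B.card : ℝ) - 1 := by
    intro B hB
    have h := h2 B hB
    have h' : (2 * d * eIn G B : ℝ) + 1 ≤ k * ((B.card : ℝ) - 1) := by
      have h3 : 2 * d * eIn G B + 1 ≤ k * (B.card - 1) := h
      have h4 : ((B.card - 1 : ℕ) : ℝ) = (B.card : ℝ) - 1 := by
        rw [Nat.cast_sub (by omega)]; simp
      rw [← h4]
      exact_mod_cast h3
    have h3 : a * eIn G B = δ * eIn G B + (2 * d * eIn G B) / k := by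
      rw [ha]; field_simp; ring
    rw [h3]
    have h4 : (2 * d * eIn G B : ℝ) / k ≤ (k * ((B.card : ℝ) - 1) - 1) / k := by
      gcongr
      linarith
    have h5 : (k * ((B.card : ℝ) - 1) - 1) / k = (B.card : ℝ) - 1 - 1 / k := by
      field_simp
    have := hδe B
    linarith
  -- the index type and the vectors
  let ι := {p : V × V // p.1 < p.2 ∧ G.Adj p.1 p.2} ⊕ V
  let b : ι → V → ℤ := Sum.elim
    (fun p v => (if v = p.1.1 then 1 else 0) - (if v = p.1.2 then 1 else 0))
    (fun u v => if v = u then 1 else 0)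
  let α : ι → ℝ := Sum.elim (fun _ => a) ω
  have hα : ∀ e, 0 ≤ α e := by
    rintro (p | v)
    · exact ha0
    · exact hω0 v
  have hbR : (fun (e : ι) (v : V) => (b e v : ℝ)) =
      Sum.elim (fun (p : {p : V × V // p.1 < p.2 ∧ G.Adj p.1 p.2}) (v : V) =>
        ((if v = p.1.1 then 1 else 0) - (if v = p.1.2 then 1 else 0) : ℝ))
        (fun (u v : V) => (if v = u then 1 else 0 : ℝ)) := by
    funext e v
    rcases e with p | u
    · simp [b]
    · simp [b]
  have hspan : Submodule.span ℝ (Set.range fun (e : ι) (v : V) => (b e v : ℝ)) = ⊤ := by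
    rw [eq_top_iff, ← (Pi.basisFun ℝ V).span_eq]
    refine Submodule.span_mono ?_
    rintro _ ⟨u, rfl⟩
    refine ⟨Sum.inr u, ?_⟩
    funext v
    simp [b, Pi.basisFun_apply, Pi.single_apply]
  have hrank : ∀ F : Finset ι, F.Nonempty →
      ∑ e ∈ F, α e <
        Module.finrank ℝ (Submodule.span ℝ ((fun e (v : V) => (b e v : ℝ)) '' F)) := by
    intro F hF
    have := rank_cond G a ω ha0 hω0 c1 c2 F hF
    rw [hbR]
    exact this
  obtain ⟨r, hr, hy⟩ := conduct b α hα hspan hrank
  have hz : ∀ e, ∃ z : V → ℤ, α e * ∑ f, r f * (∑ v, (b f v : ℝ) * z v) ^ 2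
      < r e * (∑ v, (b e v : ℝ) * z v) ^ 2 := by
    intro e
    obtain ⟨y, hy⟩ := hy e
    exact int_dir b r α e y hy
  choose z hz using hz
  let H : ℕ := ∑ e, (∑ v, b e v * z e v).natAbs
  have hH : ∀ e, |∑ v, b e v * z e v| ≤ (H : ℤ) := by
    intro e
    rw [Int.abs_eq_natAbs]
    have : (∑ v, b e v * z e v).natAbs ≤ H :=
      single_le_sum (f := fun e => (∑ v, b e v * z e v).natAbs) (fun _ _ => Nat.zero_le _)
        (mem_univ e)
    exact_mod_cast this
  set Q : ℕ := (6 * H + 1) * (n ^ 2 + 1) with hQ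
  have hQpos : 0 < Q := by positivity
  have hMpos : 0 < k * Q := by positivity
  have : NeZero (k * Q) := ⟨hMpos.ne'⟩
  set ρ : ℤ := d * Q + 3 * H with hρ
  let A : ι → Finset (ZMod (k * Q)) := Sum.elim
    (fun _ => (Icc (-ρ) ρ).image (fun i : ℤ => (i : ZMod (k * Q))))
    (fun v => univ.filter fun t => t.val / Q ∉ L v)
  have hA : ∀ e, ((A e).card : ℝ) ≤ α e * (k * Q : ℕ) := by
    rintro (p | v)
    · have h3 : (A (Sum.inl p)).card ≤ (Icc (-ρ) ρ).card := card_image_le
      have h4 : ((Icc (-ρ) ρ).card : ℤ) = 2 * ρ + 1 := by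
        have h0 : (0 : ℤ) ≤ ρ := by rw [hρ]; positivity
        rw [Int.card_Icc, Int.toNat_of_nonneg (by linarith)]
        ring
      have h5 : ((A (Sum.inl p)).card : ℤ) ≤ 2 * (d * Q + 3 * H) + 1 := by
        rw [← hρ, ← h4]; exact_mod_cast h3
      have h6 : ((A (Sum.inl p)).card : ℝ) ≤ 2 * (d * Q + 3 * H) + 1 := by exact_mod_cast h5
      refine h6.trans ?_
      have h7 : α (Sum.inl p) * ((k * Q : ℕ) : ℝ) = 2 * d * Q + δ * k * Q := by
        change a * _ = _
        rw [ha]
        push_cast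
        field_simp
      have h8 : δ * k * Q = 6 * H + 1 := by
        rw [hδ, hQ]
        push_cast
        field_simp
      rw [h7, h8]
      linarith
    · have h3 : (A (Sum.inr v)).card ≤ (((range k) \ L v) ×ˢ (range Q)).card := by
        refine card_le_card_of_injOn (fun t => (t.val / Q, t.val % Q)) ?_ ?_
        · intro t ht
          have ht' : t.val / Q ∉ L v := by
            have := ht
            simpa [A] using this
          simp only [coe_product, Set.mem_prod, mem_coe, mem_sdiff, mem_range]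
          refine ⟨⟨Nat.div_lt_of_lt_mul ?_, ht'⟩, Nat.mod_lt _ hQpos⟩
          have := ZMod.val_lt t
          linarith [mul_comm k Q]
        · intro t _ t' _ htt
          simp only [Prod.mk.injEq] at htt
          apply ZMod.val_injective
          rw [← Nat.div_add_mod t.val Q, ← Nat.div_add_mod t'.val Q, htt.1, htt.2]
      rw [card_product, card_range, card_sdiff_of_subset (hL v), card_range] at h3
      have h4 : ((A (Sum.inr v)).card : ℝ) ≤ (k - (L v).card : ℕ) * Q := by exact_mod_cast h3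
      refine h4.trans (le_of_eq ?_)
      have h5 : (L v).card ≤ k := by exact_mod_cast hLk v
      rw [Nat.cast_sub h5]
      change _ = ω v * _
      simp only [hω]
      push_cast
      field_simp
  obtain ⟨x, hx⟩ := torus b r (fun e => (hr e).le) α hα z hz H hH (k * Q) A hA
  -- the corrections at the vertices
  have hv : ∀ v, ∃ j : ℤ, |j| ≤ H ∧ (x v + (j : ZMod (k * Q))).val / Q ∈ L v := by
    intro v
    obtain ⟨j, hj, hjA⟩ := hx (Sum.inr v)
    refine ⟨j, hj, ?_⟩
    have hs : ∑ u, ((b (Sum.inr v) u : ℤ) : ZMod (k * Q)) * x u = x v := by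
      simp [b]
    rw [hs] at hjA
    by_contra hcon
    exact hjA (by simp [A, hcon])
  choose j hj hjL using hv
  refine ⟨fun v => (x v + (j v : ZMod (k * Q))).val / Q, ⟨?_, ?_⟩, hjL⟩
  · intro v
    exact mem_range.mp (hL v (hjL v))
  · -- edges
    have hmain : ∀ u v, u < v → G.Adj u v → ∀ i : ℤ, |i| ≤ d * Q - 1 →
        ¬ ((k * Q : ℕ) : ℤ) ∣ (((x u + (j u : ZMod (k * Q))).val : ℤ)
          - (x v + (j v : ZMod (k * Q))).val) - i := by
      intro u v huv hadj i hi hdvd
      obtain ⟨l, hl, hlA⟩ := hx (Sum.inl ⟨(u, v), huv, hadj⟩)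
      apply hlA
      have hs : ∑ w, ((b (Sum.inl ⟨(u, v), huv, hadj⟩) w : ℤ) : ZMod (k * Q)) * x w
          = x u - x v := by
        simp [b, sub_mul, sum_sub_distrib]
      rw [hs]
      have h3 : (((((x u + (j u : ZMod (k * Q))).val : ℤ)
          - (x v + (j v : ZMod (k * Q))).val) - i : ℤ) : ZMod (k * Q)) = 0 :=
        (ZMod.intCast_zmod_eq_zero_iff_dvd _ _).mpr hdvd
      push_cast at h3
      rw [ZMod.natCast_zmod_val, ZMod.natCast_zmod_val] at h3
      have h4 : x u - x v + (l : ZMod (k * Q)) = ((i - j u + j v + l : ℤ) : ZMod (k * Q)) := by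
        push_cast
        linear_combination h3
      rw [h4]
      simp only [A, Sum.elim_inl, mem_image, mem_Icc]
      refine ⟨i - j u + j v + l, ?_, rfl⟩
      have hju := abs_le.mp (hj u)
      have hjv := abs_le.mp (hj v)
      have hl' := abs_le.mp hl
      have hi' := abs_le.mp hi
      rw [hρ]
      constructor <;> linarith
    intro u v hadj
    rcases lt_or_gt_of_ne (G.ne_of_adj hadj) with huv | huv
    · exact round_ok hQpos (ZMod.val_lt _) (ZMod.val_lt _) (hmain u v huv hadj)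
    · have := round_ok hQpos (ZMod.val_lt _) (ZMod.val_lt _) (hmain v u huv hadj.symm)
      rw [abs_sub_comm] at this
      exact this

end Pool.Agent.Circ
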